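import Pool.Agent.helper40.TW.SpecG
import Pool.Agent.helper85.MT.Large

/-! Project TW, block G, row DEN0: the density theorem for `r ≤ r₀`. -/

set_option autoImplicit false

open Complex MeasureTheory Metric
open scoped ComplexConjugate ArithmeticFunction.vonMangoldt

namespace Pool.Agent.TWG

open Pool.Agent.helper6.LD (wt)
open Pool.Agent.helper85.BVP (ex)
open Pool.Agent.TW (Win Pw)

lemma DEN0_cont {q : ℕ} (χ : DirichletCharacter ℂ q) (k : ℕ) (r x y : ℝ) : Continuous fun v : ℝ => DP χ k r x y v := by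
  classical
  unfold DP
  refine continuous_finsetSum _ fun p hp => ?_
  have hpp : p.Prime := (Finset.mem_filter.1 hp).2
  refine continuous_const.mul ?_
  refine Continuous.const_cpow ?_ (Or.inl (by exact_mod_cast hpp.ne_zero))
  exact (continuous_ofReal.mul continuous_const).neg

lemma DEN0_wt (k n : ℕ) (r : ℝ) (hn : 1 ≤ n) : 0 ≤ wt (1 + r) k n := by
  unfold wt
  have h1 : 0 ≤ Real.log n := Real.log_natCast_nonneg n
  have h2 : 0 ≤ Λ n := ArithmeticFunction.vonMangoldt_nonneg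
  positivity

/-- One prime. -/
lemma DEN0_term (k n : ℕ) (r Y W : ℝ) (hr : 0 < r) (hn : 1 ≤ n) (hw : wt (1 + r) k n ≤ (r ^ (k - 1))⁻¹ * (Λ n / n))
    (hY : Real.log n ≤ Y) (hW : W ≤ n) :
    ‖((wt (1 + r) k n : ℝ) : ℂ)‖ ^ 2 * ((n : ℝ) + W) ≤ 2 * ((r ^ (k - 1))⁻¹) ^ 2 * Y * (Λ n / n) := by
  have hn0 : (0 : ℝ) < n := by exact_mod_cast hn
  have h0 := DEN0_wt k n r hn
  rw [Complex.norm_real, Real.norm_eq_abs, abs_of_nonneg h0]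
  have h2 : 0 ≤ Λ n := ArithmeticFunction.vonMangoldt_nonneg
  have h3 : Λ n ≤ Y := ArithmeticFunction.vonMangoldt_le_log.trans hY
  have h4 : wt (1 + r) k n ^ 2 ≤ ((r ^ (k - 1))⁻¹ * (Λ n / n)) ^ 2 := pow_le_pow_left₀ h0 hw 2
  calc wt (1 + r) k n ^ 2 * ((n : ℝ) + W) ≤ wt (1 + r) k n ^ 2 * (2 * n) :=
        mul_le_mul_of_nonneg_left (by linarith) (by positivity)
    _ ≤ ((r ^ (k - 1))⁻¹ * (Λ n / n)) ^ 2 * (2 * n) := mul_le_mul_of_nonneg_right h4 (by positivity)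
    _ = 2 * ((r ^ (k - 1))⁻¹) ^ 2 * Λ n * (Λ n / n) := by
      field_simp
    _ ≤ 2 * ((r ^ (k - 1))⁻¹) ^ 2 * Y * (Λ n / n) := by
      refine mul_le_mul_of_nonneg_right (mul_le_mul_of_nonneg_left h3 (by positivity)) (by positivity)

lemma DEN0_exp10 (K : ℕ) : (10 : ℝ) ^ (4 * K) ≤ Real.exp (12 * K) := by
  have h1 : (10 : ℝ) ≤ Real.exp 3 := by
    have h2 := Real.exp_one_gt_d9
    have h3 : Real.exp 3 = Real.exp 1 ^ 3 := by
      rw [← Real.exp_nat_mul]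
      norm_num
    rw [h3]
    have h4 : (2.7 : ℝ) ^ 3 ≤ Real.exp 1 ^ 3 := pow_le_pow_left₀ (by norm_num) (by linarith) 3
    refine le_trans (by norm_num) h4
  calc (10 : ℝ) ^ (4 * K) ≤ Real.exp 3 ^ (4 * K) := pow_le_pow_left₀ (by norm_num) h1 _
    _ = Real.exp (12 * K) := by
      rw [← Real.exp_nat_mul]
      push_cast
      ring_nf

lemma DEN0_poly (K : ℕ) : ((K : ℝ) + 1) * (K : ℝ) ^ 2 * (10 : ℝ) ^ (4 * K) ≤ Real.exp (15 * K) := by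
  have h1 := DEN0_exp10 K
  have h2 : (K : ℝ) + 1 ≤ Real.exp K := Real.add_one_le_exp _
  have h3 : (K : ℝ) ≤ Real.exp K := by linarith
  have h4 : (K : ℝ) ^ 2 ≤ Real.exp K ^ 2 := pow_le_pow_left₀ (Nat.cast_nonneg _) h3 2
  calc ((K : ℝ) + 1) * (K : ℝ) ^ 2 * (10 : ℝ) ^ (4 * K) ≤ Real.exp K * Real.exp K ^ 2 * Real.exp (12 * K) := by
        refine mul_le_mul (mul_le_mul h2 h4 (by positivity) (by positivity)) h1 (by positivity) (by positivity)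
    _ = Real.exp (15 * K) := by
      rw [← Real.exp_nat_mul, ← Real.exp_add, ← Real.exp_add]
      apply congrArg
      push_cast
      ring

/-- The mean square over all characters, one `k`. -/
lemma DEN0_one (Cm Ch θ₂ : ℝ) (hCm : 1 ≤ Cm) (hCh : 0 < Ch) (hθ : 1 ≤ θ₂)
    (hMER : ∀ x : ℝ, 1 ≤ x → ∑ n ∈ Finset.Icc 1 ⌊x⌋₊, Λ n / n ≤ Cm * (1 + Real.log x))
    (hWTB : WTB_stmt)
    (hHLS : ∀ (M : ℕ) (T : ℝ) (S : Finset ℕ) (c : ℕ → ℂ), 2 ≤ M → 1 ≤ T →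
      (∀ n ∈ S, 0 < n ∧ ∀ p : ℕ, p.Prime → p ≤ M ^ 2 → ¬ p ∣ n) →
      ∑ q ∈ Finset.Icc 1 M, ∑ χ ∈ PC q, ∫ v in (-T)..T, ‖∑ n ∈ S, c n * χ n * (n : ℂ) ^ (-(v * I))‖ ^ 2 ≤
      Ch / Real.log M * ∑ n ∈ S, ‖c n‖ ^ 2 * (n + (M : ℝ) ^ 4 * T))
    (M : ℕ) (hM : 3 ≤ M) (r : ℝ) (hr : 0 < r) (hr1 : r ≤ 1) (K k : ℕ) (hK : 2 ≤ K) (hk : 1 ≤ k) (x : ℝ)
    (hx : (M : ℝ) ^ 12 ≤ x) :
    ∑ q ∈ Finset.Icc 2 M, ∑ χ ∈ PC q, ∫ v in (-((M : ℝ) ^ 6 + 1))..((M : ℝ) ^ 6 + 1),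
      ‖DP χ k r x (Real.exp (θ₂ * K / r)) v‖ ^ 2 ≤
      4 * Ch * Cm * θ₂ ^ 2 * (K : ℝ) ^ 2 * (r ^ (2 * k))⁻¹ / Real.log M := by
  classical
  have hMr : (3 : ℝ) ≤ M := by exact_mod_cast hM
  have hM0 : (0 : ℝ) < M := by linarith
  have hL : 0 < Real.log M := Real.log_pos (by linarith)
  obtain ⟨T, hT⟩ : ∃ T : ℝ, T = (M : ℝ) ^ 6 + 1 := ⟨_, rfl⟩
  have hT1 : 1 ≤ T := by
    rw [hT]
    have : 0 ≤ (M : ℝ) ^ 6 := by positivity
    linarith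
  rw [← hT]
  obtain ⟨y, hy⟩ : ∃ y : ℝ, y = Real.exp (θ₂ * K / r) := ⟨_, rfl⟩
  rw [← hy]
  have hKr : (2 : ℝ) ≤ K := by exact_mod_cast hK
  have hly : Real.log y = θ₂ * K / r := by rw [hy, Real.log_exp]
  have hly1 : 1 ≤ Real.log y := by
    rw [hly, le_div_iff₀ hr]
    nlinarith
  have hy1 : 1 ≤ y := by
    rw [hy]
    refine Real.one_le_exp ?_
    rw [← hly]
    linarith
  obtain ⟨S, hS⟩ : ∃ S : Finset ℕ, S = (Finset.Ioc ⌊x⌋₊ ⌊y⌋₊).filter Nat.Prime := ⟨_, rfl⟩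
  have hM12 : ∀ n ∈ S, n.Prime ∧ M ^ 12 < n ∧ n ≤ ⌊y⌋₊ := by
    intro n hn
    rw [hS] at hn
    obtain ⟨h1, h2⟩ := Finset.mem_filter.1 hn
    obtain ⟨h3, h4⟩ := Finset.mem_Ioc.1 h1
    refine ⟨h2, lt_of_le_of_lt (Nat.le_floor ?_) h3, h4⟩
    push_cast
    exact hx
  have hS1 : ∀ n ∈ S, 0 < n ∧ ∀ p : ℕ, p.Prime → p ≤ M ^ 2 → ¬ p ∣ n := by
    intro n hn
    obtain ⟨h1, h2, -⟩ := hM12 n hn
    refine ⟨h1.pos, fun p hp hpM hd => ?_⟩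
    have h3 := (Nat.prime_dvd_prime_iff_eq hp h1).1 hd
    have h4 : M ^ 2 ≤ M ^ 12 := Nat.pow_le_pow_right (by omega) (by norm_num)
    omega
  have h1 := hHLS M T S (fun n => ((wt (1 + r) k n : ℝ) : ℂ)) (by omega) hT1 hS1
  have h2 : ∑ q ∈ Finset.Icc 2 M, ∑ χ ∈ PC q, ∫ v in (-T)..T, ‖DP χ k r x y v‖ ^ 2 ≤
      ∑ q ∈ Finset.Icc 1 M, ∑ χ ∈ PC q, ∫ v in (-T)..T,
        ‖∑ n ∈ S, ((wt (1 + r) k n : ℝ) : ℂ) * χ n * (n : ℂ) ^ (-(v * I))‖ ^ 2 := by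
    have e1 : ∀ q : ℕ, ∑ χ ∈ PC q, ∫ v in (-T)..T, ‖DP χ k r x y v‖ ^ 2 =
        ∑ χ ∈ PC q, ∫ v in (-T)..T,
        ‖∑ n ∈ S, ((wt (1 + r) k n : ℝ) : ℂ) * χ n * (n : ℂ) ^ (-(v * I))‖ ^ 2 := by
      intro q
      rw [hS]
      rfl
    rw [Finset.sum_congr rfl fun q _ => e1 q]
    refine Finset.sum_le_sum_of_subset_of_nonneg (Finset.Icc_subset_Icc_left (by norm_num)) fun q _ _ => ?_
    refine Finset.sum_nonneg fun χ _ => ?_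
    exact intervalIntegral.integral_nonneg (by linarith) fun v _ => by positivity
  refine h2.trans (h1.trans ?_)
  have h3 : ∑ n ∈ S, ‖((wt (1 + r) k n : ℝ) : ℂ)‖ ^ 2 * ((n : ℝ) + (M : ℝ) ^ 4 * T) ≤
      ∑ n ∈ Finset.Icc 1 ⌊y⌋₊, 2 * ((r ^ (k - 1))⁻¹) ^ 2 * Real.log y * (Λ n / n) := by
    have hsub : S ⊆ Finset.Icc 1 ⌊y⌋₊ := by
      intro n hn
      obtain ⟨h4, -, h6⟩ := hM12 n hn
      exact Finset.mem_Icc.2 ⟨h4.one_le, h6⟩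
    have hnn : ∀ n : ℕ, 0 ≤ 2 * ((r ^ (k - 1))⁻¹) ^ 2 * Real.log y * (Λ n / n) := by
      intro n
      have h5 : 0 ≤ Λ n := ArithmeticFunction.vonMangoldt_nonneg
      have h6 : 0 ≤ Real.log y := by linarith
      positivity
    refine (Finset.sum_le_sum fun n hn => ?_).trans
      (Finset.sum_le_sum_of_subset_of_nonneg hsub fun n _ _ => hnn n)
    obtain ⟨h4, h5, h6⟩ := hM12 n hn
    have hn0 : (0 : ℝ) < n := by exact_mod_cast h4.pos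
    refine DEN0_term k n r (Real.log y) ((M : ℝ) ^ 4 * T) hr h4.one_le (hWTB k n r hk h4.one_le hr).1 ?_ ?_
    · refine Real.log_le_log hn0 ?_
      have h7 : (n : ℝ) ≤ (⌊y⌋₊ : ℝ) := by exact_mod_cast h6
      exact h7.trans (Nat.floor_le (by linarith))
    · have h7 : ((M ^ 12 : ℕ) : ℝ) ≤ n := by exact_mod_cast h5.le
      push_cast at h7
      refine le_trans ?_ h7
      rw [hT]
      have h8 : (1 : ℝ) ≤ (M : ℝ) ^ 6 := one_le_pow₀ (by linarith)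
      have h9 : (9 : ℝ) ≤ (M : ℝ) ^ 2 := by nlinarith
      have h10 : 0 ≤ (M : ℝ) ^ 10 := by positivity
      calc (M : ℝ) ^ 4 * ((M : ℝ) ^ 6 + 1) ≤ (M : ℝ) ^ 4 * ((M : ℝ) ^ 6 + (M : ℝ) ^ 6) :=
            mul_le_mul_of_nonneg_left (by linarith) (by positivity)
        _ = 2 * (M : ℝ) ^ 10 := by ring
        _ ≤ (M : ℝ) ^ 2 * (M : ℝ) ^ 10 := mul_le_mul_of_nonneg_right (by linarith) h10
        _ = (M : ℝ) ^ 12 := by ring
  rw [← Finset.mul_sum] at h3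
  have h4 := hMER y hy1
  have h5 : Cm * (1 + Real.log y) ≤ 2 * Cm * Real.log y := by nlinarith
  have h6 : ∑ n ∈ S, ‖((wt (1 + r) k n : ℝ) : ℂ)‖ ^ 2 * ((n : ℝ) + (M : ℝ) ^ 4 * T) ≤
      4 * Cm * θ₂ ^ 2 * (K : ℝ) ^ 2 * (r ^ (2 * k))⁻¹ := by
    refine h3.trans ?_
    have hly0 : 0 ≤ Real.log y := by linarith
    calc 2 * ((r ^ (k - 1))⁻¹) ^ 2 * Real.log y * ∑ n ∈ Finset.Icc 1 ⌊y⌋₊, Λ n / n
        ≤ 2 * ((r ^ (k - 1))⁻¹) ^ 2 * Real.log y * (2 * Cm * Real.log y) :=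
          mul_le_mul_of_nonneg_left (h4.trans h5) (by positivity)
      _ = 4 * Cm * θ₂ ^ 2 * (K : ℝ) ^ 2 * (r ^ (2 * k))⁻¹ := by
        rw [hly]
        obtain ⟨j, rfl⟩ : ∃ j, k = j + 1 := ⟨k - 1, by omega⟩
        rw [Nat.add_sub_cancel]
        have e1 : r ^ (2 * (j + 1)) = (r ^ j) ^ 2 * r ^ 2 := by ring
        rw [e1]
        field_simp
        ring
  calc Ch / Real.log M * ∑ n ∈ S, ‖((wt (1 + r) k n : ℝ) : ℂ)‖ ^ 2 * ((n : ℝ) + (M : ℝ) ^ 4 * T)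
      ≤ Ch / Real.log M * (4 * Cm * θ₂ ^ 2 * (K : ℝ) ^ 2 * (r ^ (2 * k))⁻¹) :=
        mul_le_mul_of_nonneg_left h6 (by positivity)
    _ = 4 * Ch * Cm * θ₂ ^ 2 * (K : ℝ) ^ 2 * (r ^ (2 * k))⁻¹ / Real.log M := by ring

theorem DEN0 (hZFI : ZFI_stmt) (hMER : MER_stmt) (hWTB : WTB_stmt) (hDEC : DEC_stmt) (hHLS : HLS_stmt)
    (hCNT : CNT_stmt) : DEN0_stmt := by
  classical
  obtain ⟨Cm, hCm, hMER⟩ := hMER
  obtain ⟨A₁, r₀, θ₁, θ₂, Cd, Md, hA₁, hr₀, hr₀', hθ₁, hθ₁₂, hθ₂, hCd, hMd, hDEC⟩ := hDEC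
  obtain ⟨Ch, hCh, hHLS⟩ := hHLS
  obtain ⟨A, hA⟩ : ∃ A : ℝ, A = max A₁ (12 / θ₁) := ⟨_, rfl⟩
  have hA1 : A₁ ≤ A := by
    rw [hA]
    exact le_max_left _ _
  have hA2 : 12 ≤ θ₁ * A := by
    have h1 : 12 / θ₁ ≤ A := by
      rw [hA]
      exact le_max_right _ _
    rw [div_le_iff₀ hθ₁] at h1
    linarith
  have hA0 : 2 ≤ A := hA₁.trans hA1
  have hApos : 0 < A := by linarith
  have hθ₂0 : 0 < θ₂ := by linarith
  refine ⟨4 * Cd * Ch * Cm * θ₂ ^ 2, 30 * A, r₀, Md, by positivity, by positivity, hr₀, by linarith, hMd, ?_⟩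
  intro M hM r hr1 hr2
  have hM3 : 3 ≤ M := hMd.trans hM
  have hMr : (3 : ℝ) ≤ M := by exact_mod_cast hM3
  have hM0 : (0 : ℝ) < M := by linarith
  have hLpos : 0 < Real.log M := Real.log_pos (by linarith)
  obtain ⟨L, hL⟩ : ∃ L : ℝ, L = Real.log M := ⟨_, rfl⟩
  rw [← hL] at hr1 hLpos ⊢
  have hr : 0 < r := lt_of_lt_of_le (by positivity) hr1
  have hrL : 1 ≤ r * L := by
    rw [div_le_iff₀ hLpos] at hr1
    exact hr1
  obtain ⟨K, hK⟩ : ∃ K : ℕ, K = ⌈A * (r * L)⌉₊ := ⟨_, rfl⟩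
  have hArL : 2 ≤ A * (r * L) := by nlinarith
  have hK1 : A * (r * L) ≤ K := by
    rw [hK]
    exact Nat.le_ceil _
  have hK2 : (K : ℝ) ≤ 2 * A * (r * L) := by
    have h1 : (K : ℝ) < A * (r * L) + 1 := by
      rw [hK]
      exact Nat.ceil_lt_add_one (by linarith)
    linarith
  have hK3 : 2 ≤ K := by
    have h1 : (2 : ℝ) ≤ K := hArL.trans hK1
    exact_mod_cast h1
  obtain ⟨x, hx⟩ : ∃ x : ℝ, x = Real.exp (θ₁ * K / r) := ⟨_, rfl⟩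
  obtain ⟨y, hy⟩ : ∃ y : ℝ, y = Real.exp (θ₂ * K / r) := ⟨_, rfl⟩
  have hx12 : (M : ℝ) ^ 12 ≤ x := by
    have h1 : 12 * L ≤ θ₁ * K / r := by
      rw [le_div_iff₀ hr]
      have h2 : 12 * (L * r) ≤ (θ₁ * A) * (L * r) := mul_le_mul_of_nonneg_right hA2 (by positivity)
      have h3 : θ₁ * (A * (r * L)) ≤ θ₁ * K := mul_le_mul_of_nonneg_left hK1 hθ₁.le
      nlinarith
    have h2 : (M : ℝ) ^ 12 = Real.exp (12 * L) := by
      rw [hL]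
      have h3 := Real.exp_log hM0
      calc (M : ℝ) ^ 12 = Real.exp (Real.log M) ^ 12 := by rw [h3]
        _ = Real.exp (12 * Real.log M) := by
          rw [← Real.exp_nat_mul]
          norm_num
    rw [h2, hx]
    exact Real.exp_le_exp.2 h1
  obtain ⟨T, hT⟩ : ∃ T : ℝ, T = (M : ℝ) ^ 6 + 1 := ⟨_, rfl⟩
  have hT0 : 0 ≤ T := by
    rw [hT]
    positivity
  have hT8 : T ≤ (M : ℝ) ^ 8 := by
    rw [hT]
    have h1 : (1 : ℝ) ≤ (M : ℝ) ^ 6 := one_le_pow₀ (by linarith)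
    have h2 : (9 : ℝ) ≤ (M : ℝ) ^ 2 := by nlinarith
    calc (M : ℝ) ^ 6 + 1 ≤ 2 * (M : ℝ) ^ 6 := by linarith
      _ ≤ (M : ℝ) ^ 2 * (M : ℝ) ^ 6 := mul_le_mul_of_nonneg_right (by linarith) (by positivity)
      _ = (M : ℝ) ^ 8 := by ring
  -- one character
  have hone : ∀ q ∈ Finset.Icc 2 M, ∀ χ ∈ PC q, r * nz χ (bx (r / 2) ((M : ℝ) ^ 6)) ≤
      Cd * (r * L) * ∑ k ∈ Finset.Icc K (2 * K), (10 * r) ^ (2 * k) * ∫ v in (-T)..T, ‖DP χ k r x y v‖ ^ 2 := by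
    intro q hq χ hχ
    obtain ⟨hq2, hqM⟩ := Finset.mem_Icc.1 hq
    have hprim : χ.IsPrimitive := by
      unfold PC at hχ
      exact (Finset.mem_filter.1 hχ).2
    have hne : χ ≠ 1 := Pool.Agent.helper85.MT.prim_ne_one hq2 hprim
    have hcont : ∀ k : ℕ, Continuous fun v : ℝ => (10 * r) ^ (2 * k) * ‖DP χ k r x y v‖ ^ 2 := fun k =>
      continuous_const.mul ((DEN0_cont χ k r x y).norm.pow 2)
    have hF : Continuous fun v : ℝ => Cd * (r * L) *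
        ∑ k ∈ Finset.Icc K (2 * K), (10 * r) ^ (2 * k) * ‖DP χ k r x y v‖ ^ 2 :=
      continuous_const.mul (continuous_finsetSum _ fun k _ => hcont k)
    have h1 := hCNT q χ hq2 hne r ((M : ℝ) ^ 6)
      (fun v : ℝ => Cd * (r * L) * ∑ k ∈ Finset.Icc K (2 * K), (10 * r) ^ (2 * k) * ‖DP χ k r x y v‖ ^ 2) hr
      (by linarith) (by positivity) hF (by
        intro v hv
        rw [← hT] at hv
        have h2 := hDEC M hM q χ ⟨hq2, hqM, hne⟩ r v K (by rw [← hL]; exact hr1) hr2 (hv.trans hT8) (by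
          rw [← hL]
          refine le_trans ?_ hK1
          exact mul_le_mul_of_nonneg_right hA1 (by positivity))
        rw [← hL, ← hx, ← hy] at h2
        exact h2)
    rw [← hT] at h1
    refine h1.trans (le_of_eq ?_)
    rw [intervalIntegral.integral_const_mul, intervalIntegral.integral_finsetSum]
    · apply congrArg
      refine Finset.sum_congr rfl fun k _ => ?_
      rw [intervalIntegral.integral_const_mul]
    · intro k _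
      exact (hcont k).intervalIntegrable _ _
  -- sum over the characters
  obtain ⟨B, hB⟩ : ∃ B : ℝ, B = 4 * Ch * Cm * θ₂ ^ 2 * (K : ℝ) ^ 2 := ⟨_, rfl⟩
  have hB0 : 0 ≤ B := by
    rw [hB]
    positivity
  have hsum : r * ∑ q ∈ Finset.Icc 2 M, ∑ χ ∈ PC q, nz χ (bx (r / 2) ((M : ℝ) ^ 6)) ≤
      Cd * (r * L) * (((K : ℝ) + 1) * ((10 : ℝ) ^ (4 * K) * (B / L))) := by
    have e1 : ∑ q ∈ Finset.Icc 2 M, ∑ χ ∈ PC q, (Cd * (r * L) *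
        ∑ k ∈ Finset.Icc K (2 * K), (10 * r) ^ (2 * k) * ∫ v in (-T)..T, ‖DP χ k r x y v‖ ^ 2) =
        Cd * (r * L) * ∑ k ∈ Finset.Icc K (2 * K), (10 * r) ^ (2 * k) *
          ∑ q ∈ Finset.Icc 2 M, ∑ χ ∈ PC q, ∫ v in (-T)..T, ‖DP χ k r x y v‖ ^ 2 := by
      have e2 : ∀ q : ℕ, ∑ χ ∈ PC q, (Cd * (r * L) *
          ∑ k ∈ Finset.Icc K (2 * K), (10 * r) ^ (2 * k) * ∫ v in (-T)..T, ‖DP χ k r x y v‖ ^ 2) =
          Cd * (r * L) * ∑ k ∈ Finset.Icc K (2 * K), (10 * r) ^ (2 * k) *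
            ∑ χ ∈ PC q, ∫ v in (-T)..T, ‖DP χ k r x y v‖ ^ 2 := by
        intro q
        rw [← Finset.mul_sum, Finset.sum_comm]
        apply congrArg
        refine Finset.sum_congr rfl fun k _ => ?_
        rw [Finset.mul_sum]
      rw [Finset.sum_congr rfl fun q _ => e2 q, ← Finset.mul_sum, Finset.sum_comm]
      apply congrArg
      refine Finset.sum_congr rfl fun k _ => ?_
      rw [Finset.mul_sum]
    rw [Finset.mul_sum]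
    have h1 : ∀ q ∈ Finset.Icc 2 M, r * ∑ χ ∈ PC q, nz χ (bx (r / 2) ((M : ℝ) ^ 6)) ≤ ∑ χ ∈ PC q, (Cd * (r * L) *
        ∑ k ∈ Finset.Icc K (2 * K), (10 * r) ^ (2 * k) * ∫ v in (-T)..T, ‖DP χ k r x y v‖ ^ 2) := by
      intro q hq
      rw [Finset.mul_sum]
      exact Finset.sum_le_sum fun χ hχ => hone q hq χ hχ
    refine (Finset.sum_le_sum h1).trans ?_
    rw [e1]
    refine mul_le_mul_of_nonneg_left ?_ (by positivity)
    have h2 : ∀ k ∈ Finset.Icc K (2 * K), (10 * r) ^ (2 * k) *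
        ∑ q ∈ Finset.Icc 2 M, ∑ χ ∈ PC q, ∫ v in (-T)..T, ‖DP χ k r x y v‖ ^ 2 ≤ (10 : ℝ) ^ (4 * K) * (B / L) := by
      intro k hk
      obtain ⟨hk1, hk2⟩ := Finset.mem_Icc.1 hk
      have h3 := DEN0_one Cm Ch θ₂ hCm hCh hθ₂ hMER hWTB hHLS M hM3 r hr (by linarith) K k hK3 (by omega) x hx12
      rw [← hT, ← hy, ← hB, ← hL] at h3
      calc (10 * r) ^ (2 * k) * ∑ q ∈ Finset.Icc 2 M, ∑ χ ∈ PC q, ∫ v in (-T)..T, ‖DP χ k r x y v‖ ^ 2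
          ≤ (10 * r) ^ (2 * k) * (B * (r ^ (2 * k))⁻¹ / L) := mul_le_mul_of_nonneg_left h3 (by positivity)
        _ = (10 : ℝ) ^ (2 * k) * (B / L) := by
          rw [mul_pow]
          field_simp
        _ ≤ (10 : ℝ) ^ (4 * K) * (B / L) := by
          refine mul_le_mul_of_nonneg_right (pow_le_pow_right₀ (by norm_num) (by omega)) (by positivity)
    refine (Finset.sum_le_sum h2).trans (le_of_eq ?_)
    rw [Finset.sum_const, Nat.card_Icc, nsmul_eq_mul]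
    have h3 : 2 * K + 1 - K = K + 1 := by omega
    rw [h3]
    push_cast
    ring
  have h1 : Cd * (r * L) * (((K : ℝ) + 1) * ((10 : ℝ) ^ (4 * K) * (B / L))) =
      r * (4 * Cd * Ch * Cm * θ₂ ^ 2 * (((K : ℝ) + 1) * (K : ℝ) ^ 2 * (10 : ℝ) ^ (4 * K))) := by
    rw [hB]
    field_simp
  rw [h1] at hsum
  have h2 := le_of_mul_le_mul_left hsum hr
  refine h2.trans (mul_le_mul_of_nonneg_left ((DEN0_poly K).trans ?_) (by positivity))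
  refine Real.exp_le_exp.2 ?_
  linarith

end Pool.Agent.TWG
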